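import Mathlib
import Pool.Agent.Helper599.MQG.Main

set_option autoImplicit false

namespace Pool.Agent.Results.MP_daaace_co.LargeD

/-- There is no monochromatic quantum graph with `N` vertices and `D` colours as soon as
`N ≤ D + 1 + ρ` and `27 ρ² + 23 ρ + 5 ≤ N` for some `ρ`. -/
theorem result :
    ∀ ρ N D : ℕ, 27 * ρ ^ 2 + 23 * ρ + 5 ≤ N → N ≤ D + 1 + ρ →
      ¬ ∃ W : Fin N → Fin N → Fin D → Fin D → ℂ,
        ∀ ι : Fin N → Fin D,
          (∑ σ ∈ (Finset.univ.filter
                (fun σ : Equiv.Perm (Fin N) => (∀ v, σ (σ v) = v) ∧ ∀ v, σ v ≠ v)),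
              ∏ v ∈ Finset.univ.filter (fun v : Fin N => v < σ v),
                W v (σ v) (ι v) (ι (σ v)))
            = if (∀ u v, ι u = ι v) then (1 : ℂ) else 0 := by
  rintro ρ N D hN hD ⟨W, h⟩
  exact Pool.Agent.Helper599.MQG.no_mqg ρ N D hN hD W h

end Pool.Agent.Results.MP_daaace_co.LargeD
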